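import Mathlib
import Pool.Agent.U115.GE.Grp
import Pool.Agent.U115.GE.Binom
import Pool.Agent.U115.GE.Inf
import Pool.Agent.U115.GE.Ex
import Pool.Agent.U747.GE.MQF
import Pool.Agent.U747.GE.Rank

/-!
# Independence of the quadratic characters in the twist families of the curves with a 2-isogeny

`E_D : y² = x³ + a D x² + b D² x` is the quadratic twist by `D` of `E : y² = x³ + a x² + b x`, where neither
`b` nor `c = a² - 4 b` is a square, and the Selmer groups of the isogeny of degree two of `E` and of its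
dual are as small as possible (two elements each, the images of the points of order two).

A prime is split if it is `1` modulo `8` and a nonzero square modulo all the odd primes dividing
`b c`, and inert if it is odd and neither `b` nor `c` is a square modulo it. The class: the products `D` of
different split and inert primes, any number of each, with `D = 1` modulo `8` and `D` a square modulo
all the odd primes dividing `b c`. It is infinite and closed under `tw D m`, the squarefree part of `D m`.

`F` is a multiquadratic field generated by square roots of elements `m_1, …, m_n` of the class. The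
characters `χ` of `Gal(F/ℚ)` are those of the fields `ℚ(√m)`, `m` in the group generated by the `m_i`
modulo squares, the multiplicity of `χ` in `E_D(F) ⊗ ℂ` is the rank of `E_{tw D m}(ℚ)`; one looks at the
event that `E_{tw D m}(ℚ)` is finite and `Ш(E_{tw D m}/ℚ)[2^∞] = 0` (the minimal case).

* These events, `m` in any finite subset `M` of the class, are independent and each of them has the
  probability `c = ∏_{i ≥ 0} (1 - 2^{-(2i+1)}) = 0.4194...`: for every `T ⊆ M` the set of the `m ∈ M` in the
  minimal case is `T` for exactly the proportion `c ^ #T (1 - c) ^ (#M - #T)` of the `D` of the class, and the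
  number of the `m ∈ M` in the minimal case has exactly the binomial law of parameters `#M`, `c`.
* For every such field `F`, of degree `N`, the lower density in the class of the `D` such that
  `E_D(F)` is finite (`E_D(F) ⊗ ℂ = 0`) and `Ш(E_D/F)[2^∞]` is killed by `2 ^ n` is at least `c ^ N`. For all
  the `D` of the class the rank of `E_D(F)` is at most the sum over the characters of twice the
  dimension `k` of the kernel of the symmetric matrix `mat` over the field with two elements.

The joint law of the matrices is a theorem about the numbers `D` for an arbitrary modulus (project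
`Pool/Agent/U115/GD`, files `Stm2`, `FinJ`); the model is the case of the modulus `56` in the starting
library.

Authors: helper115 (plan, descent, statements), helper79, helper642, helper2, helper410, helper488,
helper937 (the joint law of the matrices for a general modulus), helper295, helper439, helper643,
helper674, helper234, helper158, helper998, helper798 (the law of one matrix for a general modulus),
helper747 (the curves over multiquadratic fields), helper796 (the bound of the rank by the Selmer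
groups), helper739 (good primes); the linear algebra of several matrices is helper697's in the starting
library.
-/

set_option autoImplicit false

open scoped Classical

namespace Pool.Agent.Results.MP_775b3b_nt.IndependentTwists

open Pool.Agent.TH841.NF.D (Sha rk)

/-- `y² = x³ + a D x² + b D² x` over `F` -/
def E (F : Type) [Field F] (a b : ℤ) (D : ℕ) : WeierstrassCurve F :=
  ⟨0, (a : F) * (D : F), 0, (b : F) * (D : F) ^ 2, 0⟩

/-- the quartic of `d` has a nontrivial point over `K` -/
def Quartic (K : Type) [Field K] (a b d : ℤ) : Prop :=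
  ∃ N M e : K, (M ≠ 0 ∨ e ≠ 0) ∧
    N ^ 2 = (d : K) * M ^ 4 + (a : K) * M ^ 2 * e ^ 2 + (b : K) / (d : K) * e ^ 4

/-- the Selmer group of the isogeny of degree two of `y² = x³ + a x² + b x` -/
def Sel (a b : ℤ) : Set ℤ :=
  {d | Squarefree d ∧ Quartic ℝ a b d ∧ ∀ (p : ℕ) [Fact p.Prime], Quartic ℚ_[p] a b d}

/-- the two Selmer groups have two elements each (they contain the images of the points of order
two) -/
def Minimal (a b : ℤ) : Prop :=
  (Sel a b).ncard = 2 ∧ (Sel (-2 * a) (a ^ 2 - 4 * b)).ncard = 2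

/-- `n` is `1` modulo `8` and a nonzero square modulo the odd primes dividing `b (a² - 4 b)` -/
def Res (a b : ℤ) (n : ℕ) : Prop := n % 8 = 1 ∧ ∀ l : ℕ, l.Prime → l ≠ 2 →
  (l : ℤ) ∣ b * (a ^ 2 - 4 * b) → ¬ l ∣ n ∧ IsSquare (n : ZMod l)

/-- the inert primes -/
def Inert (a b : ℤ) (q : ℕ) : Prop := q ≠ 2 ∧ ¬ IsSquare (b : ZMod q) ∧
  ¬ IsSquare ((a ^ 2 - 4 * b : ℤ) : ZMod q)

/-- the class of the numbers `D` -/
def Class (a b : ℤ) (D : ℕ) : Prop := Squarefree D ∧ Res a b D ∧
  ∀ p ∈ D.primeFactors, Res a b p ∨ Inert a b p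

/-- the squarefree part of `D m`, for squarefree `D`, `m` -/
def tw (D m : ℕ) : ℕ := ∏ p ∈ symmDiff D.primeFactors m.primeFactors, p

/-- the squarefree part of the product of the `m i`, `i ∈ T` -/
noncomputable def part {n : ℕ} (m : Fin n → ℕ) (T : Finset (Fin n)) : ℕ :=
  ∏ p ∈ (∏ i ∈ T, m i).primeFactors.filter (fun p => Odd (T.filter fun i => p ∣ m i).card), p

/-- the group generated by the `m i` modulo squares, as a set of squarefree numbers -/
noncomputable def group {n : ℕ} (m : Fin n → ℕ) : Finset ℕ := Finset.univ.image (part m)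

/-- the split prime factors of `D` -/
noncomputable def split (a b : ℤ) (D : ℕ) : Finset ℕ := D.primeFactors.filter fun p => Res a b p

/-- `1` if `m` is not a square modulo `p`, and `0` if it is -/
noncomputable def nonsq (p m : ℕ) : ZMod 2 := if IsSquare (m : ZMod p) then 0 else 1

/-- `1` if no root of `x² + a x + b` modulo `p` is a square modulo `p`, and `0` otherwise -/
noncomputable def theta (a b : ℤ) (p : ℕ) : ZMod 2 :=
  if ∀ x : ZMod p, x ^ 2 + (a : ZMod p) * x + (b : ZMod p) = 0 → ¬ IsSquare x then 1 else 0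

/-- The matrix over the field with two elements, with rows and columns indexed by the split prime
factors of `D`: the entry at `(i, j)` is `nonsq i j` for `i ≠ j`, and the entry at `(i, i)` is the sum
of `theta i` and of the `nonsq i l` for all the prime factors `l ≠ i` of `D`. -/
noncomputable def mat (a b : ℤ) (D : ℕ) : Matrix (split a b D) (split a b D) (ZMod 2) :=
  Matrix.of fun i j =>
    if i = j then theta a b i + ∑ l ∈ D.primeFactors.erase i, nonsq i l else nonsq i j

/-- the dimension of the kernel of the matrix -/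
noncomputable def k (a b : ℤ) (D : ℕ) : ℕ := (split a b D).card - (mat a b D).rank

/-- `E_D(ℚ)` is finite and `Ш(E_D/ℚ)[2^∞] = 0` -/
def Trivial (a b : ℤ) (D : ℕ) : Prop :=
  Finite (E ℚ a b D).toAffine.Point ∧ ∀ (n : ℕ) (x : Sha (E ℚ a b D)), 2 ^ n • x = 0 → x = 0

/-- over the fields `F` generated by square roots of the `m i`: `E_D(F)` is finite and `Ш(E_D/F)[2^∞]`
is killed by `2 ^ n` -/
def TrivialOver (a b : ℤ) {n : ℕ} (m : Fin n → ℕ) (D : ℕ) : Prop :=
  ∀ (F : Type) [Field F] [NumberField F] (r : Fin n → F), (∀ i, r i ^ 2 = (m i : F)) →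
    IntermediateField.adjoin ℚ (Set.range r) = ⊤ →
    Finite (E F a b D).toAffine.Point ∧
      ∀ (j : ℕ) (x : Sha (E F a b D)), 2 ^ j • x = 0 → 2 ^ n • x = 0

/-- the number of the `D ≤ X` of the class with the property `P` -/
noncomputable def num (a b : ℤ) (P : ℕ → Prop) (X : ℕ) : ℕ :=
  ((Finset.Icc 1 X).filter fun D => Class a b D ∧ P D).card

/-- the proportion of the `D` of the class with the property `P` tends to `γ` -/
def Proportion (a b : ℤ) (P : ℕ → Prop) (γ : ℝ) : Prop :=
  Filter.Tendsto (fun X : ℕ => (num a b P X : ℝ) / (num a b (fun _ => True) X : ℝ)) Filter.atTop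
    (nhds γ)

/-- `∏_{i ≥ 0} (1 - 2^{-(2i+1)})` -/
noncomputable def c : ℝ := ∏' i : ℕ, (1 - (1 / 2 : ℝ) ^ (2 * i + 1))

section proof

open Pool.Agent.U115.GE (tws pr)

theorem class_iff (a b : ℤ) (D : ℕ) : Class a b D ↔ Pool.Agent.U115.GE.Class a b D := by
  refine and_congr_right fun _ => and_congr_right fun _ => forall₂_congr fun p hp => ?_
  have hpp := Nat.prime_of_mem_primeFactors hp
  exact or_congr ⟨fun h => ⟨hpp, h⟩, fun h => h.2⟩ ⟨fun h => ⟨hpp, h⟩, fun h => h.2⟩

theorem theta_eq (a b : ℤ) (p : ℕ) : theta a b p = Pool.Agent.U115.GE.thetaG a b p := by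
  unfold theta Pool.Agent.U115.GE.thetaG Pool.Agent.U115.GE.RtG
  simp only [Nat.cast_one, mul_one, one_pow]

theorem mat_eq (a b : ℤ) (D : ℕ) : mat a b D = Pool.Agent.U115.GE.mat a b D := by
  ext i j
  have hL : mat a b D i j = if i = j then theta a b i + ∑ l ∈ D.primeFactors.erase i, nonsq i l
    else nonsq i j := rfl
  have hR : Pool.Agent.U115.GE.mat a b D i j =
      if (i : ℕ) = j then Pool.Agent.U115.GE.thetaG a b i +
        ∑ q ∈ Pool.Agent.U115.GE.ine a b D, Pool.Agent.Y698.SG.nq i q +
        ∑ p ∈ (Pool.Agent.U115.GE.spl a b D).erase i, Pool.Agent.Y698.SG.nq i p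
      else Pool.Agent.Y698.SG.nq i j := rfl
  rw [hL, hR]
  by_cases hij : i = j
  · rw [if_pos hij, if_pos (congrArg Subtype.val hij), theta_eq]
    have h1 : D.primeFactors.erase i =
        Pool.Agent.U115.GE.ine a b D ∪ (Pool.Agent.U115.GE.spl a b D).erase i := by
      have h2 : D.primeFactors = Pool.Agent.U115.GE.ine a b D ∪ Pool.Agent.U115.GE.spl a b D := by
        unfold Pool.Agent.U115.GE.ine Pool.Agent.U115.GE.spl
        rw [Finset.union_comm]
        exact (Finset.filter_union_filter_not_eq _ _).symm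
      conv_lhs => rw [h2]
      rw [Finset.erase_union_distrib, Finset.erase_eq_of_notMem
        (fun h => Finset.disjoint_left.1 (Pool.Agent.U115.GE.spl_ine a b D) h i.2)]
    rw [h1, Finset.sum_union (Finset.disjoint_of_subset_right (Finset.erase_subset _ _)
      (Pool.Agent.U115.GE.spl_ine a b D)), ← add_assoc]
    rfl
  · rw [if_neg hij, if_neg (fun h => hij (Subtype.ext h))]
    rfl

theorem k_eq (a b : ℤ) (D : ℕ) : k a b D = Pool.Agent.U115.GE.cork a b D := by
  unfold k Pool.Agent.U115.GE.cork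
  rw [mat_eq]
  rfl

theorem class_tw {a b : ℤ} {D m : ℕ} (hD : Class a b D) (hm : Class a b m) :
    Class a b (tw D m) :=
  (class_iff _ _ _).2 (Pool.Agent.U115.GE.class_tws ((class_iff _ _ _).1 hD) ((class_iff _ _ _).1 hm))

theorem rank_le {a b : ℤ} (hb0 : b ≠ 0) (hc0 : a ^ 2 - 4 * b ≠ 0) (hs : Minimal a b) {D : ℕ}
    (h : Class a b D) : rk (E ℚ a b D) ≤ 2 * k a b D := by
  have hG := Pool.Agent.U739.GE.t_GOOD
  have hB := Pool.Agent.U796.GE.t_BND
  have h' := (class_iff a b D).1 h
  have hH := Pool.Agent.U115.GE.class_hg hb0 hc0 h'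
  have hk := Pool.Agent.U115.GE.class_kap hb0 hc0 h'
  obtain ⟨h1, h2⟩ := hH.bound hG hB (Pool.Agent.U115.GE.prod_eq (a := a) (b := b) h.1)
  have e1 : Pool.Agent.U115.GE.sel a b = 2 := hs.1
  have e2 : Pool.Agent.U115.GE.sel (-2 * a) (a ^ 2 - 4 * b) = 2 := hs.2
  rw [hk, ← k_eq, e1, e2] at h2
  have h4 : 4 * 2 ^ rk (E ℚ a b D) ≤ 4 * 2 ^ (2 * k a b D) := by
    calc 4 * 2 ^ rk (E ℚ a b D) ≤ 4 * 2 ^ rk (E ℚ a b D) *
        Nat.card {x : Sha (E ℚ a b D) // 2 • x = 0} := by
          have : 0 < Nat.card {x : Sha (E ℚ a b D) // 2 • x = 0} := by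
            have : Finite {x : Sha (E ℚ a b D) // 2 • x = 0} := h1
            have : Nonempty {x : Sha (E ℚ a b D) // 2 • x = 0} := ⟨⟨0, smul_zero 2⟩⟩
            exact Nat.card_pos
          exact Nat.le_mul_of_pos_right _ this
      _ ≤ (2 ^ k a b D) ^ 2 * (2 * 2) := h2
      _ = 4 * 2 ^ (2 * k a b D) := by rw [← pow_mul, mul_comm (k a b D) 2]; ring
  have h5 := Nat.le_of_mul_le_mul_left h4 (by norm_num)
  exact (Nat.pow_le_pow_iff_right (by norm_num)).1 h5

theorem triv_iff {a b : ℤ} (hb : ¬ IsSquare b) (hc : ¬ IsSquare (a ^ 2 - 4 * b))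
    (hs : Minimal a b) {D : ℕ} (h : Class a b D) : Trivial a b D ↔ k a b D = 0 := by
  have hb0 : b ≠ 0 := by
    rintro rfl
    exact hb ⟨0, by norm_num⟩
  have hc0 : a ^ 2 - 4 * b ≠ 0 := by
    intro h
    exact hc ⟨0, by rw [h]; norm_num⟩
  have hG := Pool.Agent.U739.GE.t_GOOD
  have hB := Pool.Agent.U796.GE.t_BND
  have h' := (class_iff a b D).1 h
  have h4 : Pool.Agent.U115.GE.sel a b * Pool.Agent.U115.GE.sel (-2 * a) (a ^ 2 - 4 * b) = 4 := by
    have e1 : Pool.Agent.U115.GE.sel a b = 2 := hs.1
    have e2 : Pool.Agent.U115.GE.sel (-2 * a) (a ^ 2 - 4 * b) = 2 := hs.2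
    rw [e1, e2]
  have h1 := (Pool.Agent.U115.GE.class_hg hb0 hc0 h').iff hG hB hb hc h4
    (Pool.Agent.U115.GE.prod_eq h.1)
  rw [Pool.Agent.U115.GE.class_kap hb0 hc0 h'] at h1
  rw [k_eq]
  refine Iff.trans h1 ?_
  constructor
  · intro h2
    by_contra h3
    have := Nat.one_lt_two_pow h3
    omega
  · intro h2
    rw [h2, pow_zero]

theorem num_eq (a b : ℤ) (P : ℕ → Prop) (X : ℕ) :
    (num a b P X : ℝ) / (num a b (fun _ => True) X : ℝ) =
      pr ((Finset.Icc 1 X).filter fun D => Class a b D) P := by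
  unfold num pr
  refine congrArg₂ (fun a b : ℕ => (a : ℝ) / (b : ℝ)) ?_ ?_
  · refine congrArg Finset.card (Finset.ext fun D => ?_)
    simp only [Finset.mem_filter, and_assoc]
  · refine congrArg Finset.card (Finset.ext fun D => ?_)
    simp only [Finset.mem_filter, and_true]

theorem joint {a b : ℤ} (hb : ¬ IsSquare b) (hc : ¬ IsSquare (a ^ 2 - 4 * b))
    (hs : Minimal a b) (U : Finset ℕ) (hU : ∀ m ∈ U, Class a b m) :
    Filter.Tendsto (fun X => pr ((Finset.Icc 1 X).filter fun D => Class a b D)
      (fun D => ∀ m ∈ U, Trivial a b (tw D m))) Filter.atTop (nhds (c ^ U.card)) := by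
  refine (Pool.Agent.U115.GE.densJ hb hc U fun m hm => (class_iff _ _ _).1 (hU m hm)).congr
    fun X => ?_
  unfold pr
  refine congrArg₂ (fun a b : ℕ => (a : ℝ) / (b : ℝ)) ?_ ?_
  · refine congrArg Finset.card (Finset.ext fun D => ?_)
    simp only [Finset.mem_filter, and_assoc]
    refine and_congr_right fun _ => ?_
    rw [← class_iff]
    refine and_congr_right fun hD => forall₂_congr fun m hm => ?_
    rw [triv_iff hb hc hs (class_tw hD (hU m hm)), k_eq]
    rfl
  · refine congrArg Finset.card (Finset.ext fun D => ?_)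
    rw [Finset.mem_filter, Finset.mem_filter, class_iff]

end proof

open Pool.Agent.U115.GE (pr) in
/-- **The quadratic characters are independent.** -/
theorem result (a b : ℤ) (hb : ¬ IsSquare b) (hc : ¬ IsSquare (a ^ 2 - 4 * b))
    (hs : Minimal a b) :
    (∀ D m : ℕ, Class a b D → Class a b m → Class a b (tw D m) ∧
      rk (E ℚ a b (tw D m)) ≤ 2 * k a b (tw D m) ∧
      (Trivial a b (tw D m) ↔ k a b (tw D m) = 0)) ∧
    (∀ N : ℕ, ∃ M : Finset ℕ, M.card = N ∧ ∀ m ∈ M, Class a b m) ∧
    (∀ M T : Finset ℕ, (∀ m ∈ M, Class a b m) → T ⊆ M →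
      Proportion a b (fun D => ∀ m ∈ M, (Trivial a b (tw D m) ↔ m ∈ T))
        (c ^ T.card * (1 - c) ^ (M.card - T.card))) ∧
    (∀ (M : Finset ℕ) (j : ℕ), (∀ m ∈ M, Class a b m) →
      Proportion a b (fun D => (M.filter fun m => Trivial a b (tw D m)).card = j)
        (M.card.choose j * (c ^ j * (1 - c) ^ (M.card - j)))) ∧
    (∀ (n : ℕ) (m : Fin n → ℕ), (∀ i, Class a b (m i)) → ∀ ε : ℝ, 0 < ε →
      ∃ X₀ : ℕ, ∀ X : ℕ, X₀ ≤ X →
        (c ^ (group m).card - ε) * (num a b (fun _ => True) X : ℝ) ≤
          (num a b (TrivialOver a b m) X : ℝ)) ∧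
    (∀ (n : ℕ) (m : Fin n → ℕ) (D : ℕ), (∀ i, Class a b (m i)) → Class a b D →
      ∀ (F : Type) [Field F] [NumberField F] (r : Fin n → F), (∀ i, r i ^ 2 = (m i : F)) →
        IntermediateField.adjoin ℚ (Set.range r) = ⊤ →
        rk (E F a b D) ≤ ∑ T : Finset (Fin n), 2 * k a b (tw D (part m T))) ∧
    0.4194 < c ∧ c < 0.4195 ∧ Minimal 13 128 := by
  have hb0 : b ≠ 0 := by
    rintro rfl
    exact hb ⟨0, by norm_num⟩
  have hc0 : a ^ 2 - 4 * b ≠ 0 := by
    intro h
    exact hc ⟨0, by rw [h]; norm_num⟩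
  have hJ : ∀ M : Finset ℕ, (∀ m ∈ M, Class a b m) → ∀ U ⊆ M,
      Filter.Tendsto (fun X => pr ((Finset.Icc 1 X).filter fun D => Class a b D)
        (fun D => ∀ m ∈ U, Trivial a b (tw D m))) Filter.atTop (nhds (c ^ U.card)) :=
    fun M hM U hU => joint hb hc hs U fun m hm => hM m (hU hm)
  have hpart : ∀ (n : ℕ) (m : Fin n → ℕ), (∀ i, Class a b (m i)) → ∀ T, Class a b (part m T) :=
    fun n m hm T => (class_iff _ _ _).2
      (Pool.Agent.U115.GE.class_part (fun i => (class_iff _ _ _).1 (hm i)) T)
  refine ⟨fun D m hD hm => ⟨class_tw hD hm, rank_le hb0 hc0 hs (class_tw hD hm),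
    triv_iff hb hc hs (class_tw hD hm)⟩, fun N => ?_, fun M T hM hT => ?_, fun M j hM => ?_,
    fun n m hm ε hε => ?_, fun n m D hm hD F _ _ r hr hF => ?_, ?_⟩
  · obtain ⟨M, h1, h2⟩ := Pool.Agent.U115.GE.class_many hb hc N
    exact ⟨M, h1, fun m hm => (class_iff _ _ _).2 (h2 m hm)⟩
  · refine (Pool.Agent.U115.GE.exact_law (hJ M hM) hT).congr fun X => ?_
    rw [num_eq]
  · refine (Pool.Agent.U115.GE.binom_law (hJ M hM) j).congr fun X => ?_
    rw [num_eq]
  · have h1 := (joint hb hc hs (group m) (by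
      intro x hx
      obtain ⟨T, -, rfl⟩ := Finset.mem_image.1 hx
      exact hpart n m hm T)).eventually (lt_mem_nhds (show c ^ (group m).card - ε <
        c ^ (group m).card by linarith))
    obtain ⟨X₀, h2⟩ := Filter.eventually_atTop.1 h1
    refine ⟨X₀, fun X hX => ?_⟩
    have h3 := h2 X hX
    have h4 : num a b (fun D => ∀ x ∈ group m, Trivial a b (tw D x)) X ≤
        num a b (TrivialOver a b m) X := by
      unfold num
      refine Finset.card_le_card fun D hD => ?_
      simp only [Finset.mem_filter] at hD ⊢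
      obtain ⟨h5, h6, h7⟩ := hD
      refine ⟨h5, h6, ?_⟩
      intro F _ _ r hr hF
      refine Pool.Agent.U747.GE.t_MQF a b D n m hb0 hc0 h6.1.ne_zero
        (fun i => (hm i).1.ne_zero) (fun T N g hN e => ?_) F r hr hF
      have e1 := Pool.Agent.U115.GE.eq_tws (fun i => (hm i).1) h6.1 T hN e
      have h8 := h7 (part m T) (Finset.mem_image_of_mem _ (Finset.mem_univ T))
      have e2 : tw D (part m T) = N := e1.symm
      rw [e2] at h8
      exact ⟨h8.1, fun x hx => h8.2 1 x (by rw [pow_one]; exact hx)⟩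
    rw [← num_eq] at h3
    by_cases h0 : (num a b (fun _ => True) X : ℝ) = 0
    · rw [h0, mul_zero]
      positivity
    · have h5 : 0 < (num a b (fun _ => True) X : ℝ) :=
        lt_of_le_of_ne (Nat.cast_nonneg _) (Ne.symm h0)
      have h6 := (lt_div_iff₀ h5).1 h3
      refine h6.le.trans ?_
      exact_mod_cast h4
  · refine Pool.Agent.U747.GE.t_MQR a b D n m hb0 hc0 hD.1.ne_zero
      (fun i => (hm i).1.ne_zero) (fun T => 2 * k a b (tw D (part m T)))
      (fun T N g hN e => ?_) F r hr hF
    have e1 := Pool.Agent.U115.GE.eq_tws (fun i => (hm i).1) hD.1 T hN e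
    have e2 : tw D (part m T) = N := e1.symm
    have h8 := rank_le hb0 hc0 hs (class_tw hD (hpart n m hm T))
    rw [e2] at h8 ⊢
    exact h8
  · obtain ⟨-, -, -, h1, h2⟩ := Pool.Agent.Y948.CQ.t_C2
    obtain ⟨e1, e2⟩ := Pool.Agent.U115.GE.sel_X14
    exact ⟨h1, h2, e1, e2⟩

end Pool.Agent.Results.MP_775b3b_nt.IndependentTwists
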