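import Pool.Agent.Results.MP_78d38b_nt.TowersEveryCurve
import Pool.Agent.U80.AM.Char
import Pool.Agent.U80.AM.Ex1

/-!
# The multiplicities of all the Artin representations of an infinite tower at once

Let `E : y² = x³ + a x² + b x` with integers `a`, `b` such that `b` and `a² - 4b` are not squares, and let
`E_D : y² = x³ + a D x² + b D² x` be its quadratic twist, `D` squarefree and prime to `2 b (a² - 4b)`. Let
`s(E_D) ≥ 0` be the Selmer rank of the descent via the isogeny of degree two, and `K_∞(D)` the field generated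
by the square roots of the tower primes of `E_D` (the primes `q ≡ 1 mod 8` not dividing `D`, modulo which `b`
and `a² - 4b` are not squares and which are squares modulo the primes dividing `b (a² - 4b)` that are not
neutral and modulo the prime factors of `D` that are not inert). It is of infinite degree if `E` has
neutral primes.

* For ALL the number fields `K` in `K_∞(D)`, which are Galois over `ℚ`, and ALL the irreducible complex
  representations `ψ` of `Gal(K/ℚ)` (which are characters, since the group has exponent two) the multiplicity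
  of `ψ` in `E_D(K) ⊗ ℂ` is at most `s(E_D)`.
* Let the class consist of the squarefree `D ≡ 1 mod 8` that are nonzero squares modulo the odd primes dividing
  `b (a² - 4b)` and whose prime factors are split or inert. If `s(E) = 0` then for exactly the proportion
  `0.4194…` of the `D` of the class all the multiplicities are `0`, and if `s(E) = 1` then for exactly the same
  proportion all of them are at most `1`, the bound of the minimalist conjecture for all the
  representations at once. Examples: `y² = x³ + 7 x² + 7 x` for `0` and `y² = x³ - 14 x² - 7 x` for `1`.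

Proof. The part of `E_D(K) ⊗ ℂ` on which the group acts by `ψ` comes from the points of `E_D(K)` on which it acts
by `ψ` (the projection). There is an element `w` of `K` on which the group acts by `ψ` and whose square is
`m = k² ∏ q`, a product of tower primes (linear independence of the automorphisms), so these points are the
rational points of the twist of `E_D` by `m`, whose rank is at most `s(E_{Dm}) = s(E_D)`: the Selmer groups
of all the twists in the tower are the same (`U80/GT/Tow`). The law for the class is the theorem of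
`MP_78d38b_nt.TowersEveryCurve` (library: project `U115/GD`).
-/

set_option autoImplicit false

open scoped Classical TensorProduct

open WeierstrassCurve

namespace Pool.Agent.Results.MP_775b3b_nt.InfiniteTowersMultiplicities

open Pool.Agent.Results.MP_78d38b_nt.TowersEveryCurve (s Twist TowerPrime Tower HasNeutral Class
  Numbers cc)

/-- the curve `E_D : y² = x³ + a D x² + b D² x` over `ℚ` -/
def curve (a b : ℤ) (D : ℕ) : WeierstrassCurve ℚ :=
  ⟨0, ((a * D : ℤ) : ℚ), 0, ((b * (D : ℤ) ^ 2 : ℤ) : ℚ), 0⟩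

section mult

variable (a b : ℤ) (D : ℕ) (F : Type) [Field F] [CharZero F]

/-- the group `E_D(F)` -/
def Points : Type := ((curve a b D).baseChange F).toAffine.Point

noncomputable instance instPoints : AddCommGroup (Points a b D F) :=
  (inferInstance : AddCommGroup ((curve a b D).baseChange F).toAffine.Point)

/-- the action of the automorphism `g` on `E_D(F)` -/
noncomputable def act (g : F ≃ₐ[ℚ] F) : Points a b D F →+ Points a b D F :=
  WeierstrassCurve.Affine.Point.map (W' := (curve a b D).toAffine) g.toAlgHom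

/-- the complex vector space `E_D(F) ⊗ ℂ` -/
def VE : Type := ℂ ⊗[ℤ] Points a b D F

noncomputable instance instVE : AddCommGroup (VE a b D F) :=
  (inferInstance : AddCommGroup (ℂ ⊗[ℤ] Points a b D F))

noncomputable instance instVE' : Module ℂ (VE a b D F) :=
  (inferInstance : Module ℂ (ℂ ⊗[ℤ] Points a b D F))

/-- the action of `g` on `E_D(F) ⊗ ℂ` -/
noncomputable def gal (g : F ≃ₐ[ℚ] F) : VE a b D F →ₗ[ℂ] VE a b D F :=
  LinearMap.baseChange ℂ (act a b D F g).toIntLinearMap

/-- the part of `E_D(F) ⊗ ℂ` on which the group acts by the character `ψ` -/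
noncomputable def part (ψ : (F ≃ₐ[ℚ] F) →* ℂˣ) : Submodule ℂ (VE a b D F) where
  carrier := {v | ∀ g, gal a b D F g v = ((ψ g : ℂˣ) : ℂ) • v}
  add_mem' := by
    intro v w hv hw g
    rw [map_add, hv g, hw g, smul_add]
  zero_mem' := by
    intro g
    rw [map_zero, smul_zero]
  smul_mem' := by
    intro c v hv g
    rw [map_smul, hv g, smul_comm]

/-- the multiplicity of `ψ` in `E_D(F) ⊗ ℂ` -/
noncomputable def mult (ψ : (F ≃ₐ[ℚ] F) →* ℂˣ) : Cardinal := Module.rank ℂ (part a b D F ψ)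

/-- `F` is Galois over `ℚ` with a Galois group of exponent two, and the multiplicities of all its characters
are at most `k` -/
structure AllAtMost (k : ℕ) : Prop where
  galois : IsGalois ℚ F
  two : ∀ g : F ≃ₐ[ℚ] F, g * g = 1
  mult : ∀ ψ : (F ≃ₐ[ℚ] F) →* ℂˣ, mult a b D F ψ ≤ k

end mult

/-- the multiplicities over all the number fields in the tower of `E_D` are at most `s(E_D)` -/
def Bounds (a b : ℤ) : Prop := ∀ D : ℕ, Twist a b D → ∃ k : ℕ, s a b D = k ∧
  ∀ K : IntermediateField ℚ ℂ, K ≤ Tower a b D → FiniteDimensional ℚ K → AllAtMost a b D K k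

/-- if there are neutral primes then all the towers are infinite -/
def Infinite (a b : ℤ) : Prop := HasNeutral a b → ∀ D : ℕ, Twist a b D →
  {q : ℕ | TowerPrime a b D q}.Infinite ∧ ¬ FiniteDimensional ℚ (Tower a b D)

/-- for the `D` of the class `s(E_D) - s(E)` is even and not negative; it is zero for exactly the
proportion `cc` -/
def Law (a b : ℤ) : Prop :=
  (∀ D : ℕ, Class a b D → Twist a b D ∧ ∃ k : ℕ, s a b D = s a b 1 + 2 * k) ∧
    Filter.Tendsto (fun X : ℕ => ((Numbers a b (fun D => s a b D = s a b 1) X).card : ℝ) /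
      ((Numbers a b (fun _ => True) X).card : ℝ)) Filter.atTop (nhds cc)

section proof

open Pool.Agent.U80.GT
open Pool.Agent.U80.AM
open Pool.Agent.Results.MP_78d38b_nt.TowersEveryCurve (s_eq s_one)

theorem all_F {a b : ℤ} (hb : b ≠ 0) (hc : a ^ 2 - 4 * b ≠ 0) {D : ℕ} (hD : Dn a b D) {k : ℕ}
    (hk : NN (a * D) (b * (D : ℤ) ^ 2) = 4 * 2 ^ k) {F : Type} [Field F] [CharZero F]
    [FiniteDimensional ℚ F] {P : Finset ℕ} (hP : ∀ q ∈ P, TP a b D q) {n : ℕ}
    {S : Fin n → Finset ℕ} {r : Fin n → F} (hS : ∀ i, S i ⊆ P)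
    (hr : ∀ i, r i ^ 2 = ((∏ q ∈ S i, q : ℕ) : F))
    (hgen : IntermediateField.adjoin ℚ (Set.range r) = ⊤) : AllAtMost a b D F k := by
  have hP0 : ∀ q ∈ P, q ≠ 0 := fun q hq => (hP q hq).1.ne_zero
  have hgal : IsGalois ℚ F := gal_galois hr hgen
  have htwo : ∀ g : F ≃ₐ[ℚ] F, g * g = 1 := gal_sq hP0 hS hr hgen
  refine ⟨hgal, htwo, fun ψ => ?_⟩
  have hψ : ∀ g, ((ψ g : ℂˣ) : ℂ) = 1 ∨ ((ψ g : ℂˣ) : ℂ) = -1 := by
    intro g
    have h1 : ψ g * ψ g = 1 := by rw [← map_mul, htwo g, map_one]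
    have h2 : ((ψ g : ℂˣ) : ℂ) * ((ψ g : ℂˣ) : ℂ) = 1 := by
      rw [← Units.val_mul, h1, Units.val_one]
    exact mul_self_eq_one_iff.1 h2
  let ε : (F ≃ₐ[ℚ] F) → ℤ := fun g => if ((ψ g : ℂˣ) : ℂ) = 1 then 1 else -1
  have hεψ : ∀ g, ((ε g : ℤ) : ℂ) = ((ψ g : ℂˣ) : ℂ) := by
    intro g
    show (((if ((ψ g : ℂˣ) : ℂ) = 1 then 1 else -1 : ℤ)) : ℂ) = _
    rcases hψ g with h | h
    · rw [if_pos h, h, Int.cast_one]
    · rw [if_neg (by rw [h]; norm_num), h]
      norm_num
  have hε : ∀ g, ε g = 1 ∨ ε g = -1 := by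
    intro g
    show (if ((ψ g : ℂˣ) : ℂ) = 1 then (1 : ℤ) else -1) = 1 ∨
      (if ((ψ g : ℂˣ) : ℂ) = 1 then (1 : ℤ) else -1) = -1
    by_cases h : ((ψ g : ℂˣ) : ℂ) = 1
    · left
      rw [if_pos h]
    · right
      rw [if_neg h]
  have hεm : ∀ g h, ε (g * h) = ε g * ε h := by
    intro g h
    have h1 : ((ε (g * h) : ℤ) : ℂ) = ((ε g * ε h : ℤ) : ℂ) := by
      push_cast
      rw [hεψ, hεψ, hεψ, map_mul, Units.val_mul]
    exact_mod_cast h1
  obtain ⟨w, ⟨U, l, hU, hl, hw⟩, hgw⟩ := exists_w hP0 hS hr hgen ε hε hεm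
  have hm : (((∏ q ∈ U, q) * l ^ 2 : ℕ) : ℤ) ≠ 0 := by
    have : (∏ q ∈ U, q) * l ^ 2 ≠ 0 :=
      mul_ne_zero (Finset.prod_ne_zero_iff.2 fun q hq => hP0 q (hU hq)) (pow_ne_zero 2 hl)
    exact_mod_cast this
  have hDz : (D : ℤ) ≠ 0 := by exact_mod_cast hD.1.ne_zero
  obtain ⟨-, h2⟩ := tow_bound hb hc hD (U := U) (fun q hq => hP q (hU hq)) (k := l) hl
  have hcard : 1 ≤ Nat.card {x : Pool.Agent.TH841.NF.D.Sha
      (Pool.Agent.Y682.gc (a * D * (((∏ q ∈ U, q) * l ^ 2 : ℕ) : ℤ))
        (b * (D : ℤ) ^ 2 * (((∏ q ∈ U, q) * l ^ 2 : ℕ) : ℤ) ^ 2) ℚ) // 2 • x = 0} := by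
    obtain ⟨h3, -⟩ := tow_bound hb hc hD (U := U) (fun q hq => hP q (hU hq)) (k := l) hl
    exact Nat.card_pos_iff.2 ⟨⟨⟨0, smul_zero _⟩⟩, h3⟩
  set m : ℤ := (((∏ q ∈ U, q) * l ^ 2 : ℕ) : ℤ) with hmd
  have hR : Rg a b ℚ (D * m) ≤ k := by
    rw [hk] at h2
    have h3 : 2 ^ Rg a b ℚ (D * m) ≤ 2 ^ k := by
      have h4 := (Nat.mul_le_mul_left (4 * 2 ^ Rg a b ℚ (D * m)) hcard).trans h2
      omega
    exact (Nat.pow_le_pow_iff_right (by norm_num : 1 < 2)).1 h3
  have hne := g_ne hb hc (mul_ne_zero hDz hm)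
  have e1 : a * (D * m) = a * D * m := by ring
  have e2 : b * (D * m) ^ 2 = b * (D : ℤ) ^ 2 * m ^ 2 := by ring
  rw [e1, e2] at hne
  have hR' : Module.finrank ℤ (Pool.Agent.Y682.MP
      (Pool.Agent.Y682.gc (a * D * m) (b * (D : ℤ) ^ 2 * m ^ 2) ℚ)) ≤ k := by
    have h3 : Rg a b ℚ (D * m) = Module.finrank ℤ (Pool.Agent.Y682.MP
        (Pool.Agent.Y682.gc (a * D * m) (b * (D : ℤ) ^ 2 * m ^ 2) ℚ)) := by
      unfold Rg
      rw [e1, e2]
      rfl
    rw [← h3]
    exact hR
  have hw' : w ^ 2 = (m : F) := by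
    rw [hw, hmd, Int.cast_natCast]
  have h5 := rank_eig (A := a * D) (B := b * (D : ℤ) ^ 2) hw' hm hε hgw hne.1 hne.2
  have h6 := rank_prt (ac (a * D) (b * (D : ℤ) ^ 2) F) ε (fun g h P => ac_mul g h P) hε hεm
  have h7 : part a b D F ψ = prt (ac (a * D) (b * (D : ℤ) ^ 2) F) ε := by
    ext v
    refine forall_congr' fun g => ?_
    rw [hεψ g]
    rfl
  have h8 : mult a b D F ψ = Module.rank ℂ (prt (ac (a * D) (b * (D : ℤ) ^ 2) F) ε) := by
    unfold InfiniteTowersMultiplicities.mult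
    rw [h7]
    rfl
  rw [h8]
  exact (h6.trans h5).trans (by exact_mod_cast hR')

theorem all_of {a b : ℤ} (hb : b ≠ 0) (hc : a ^ 2 - 4 * b ≠ 0) {D : ℕ} (hD : Twist a b D) :
    ∃ k : ℕ, s a b D = k ∧ ∀ K : IntermediateField ℚ ℂ, K ≤ Tower a b D →
      FiniteDimensional ℚ K → AllAtMost a b D K k := by
  have hDn : Dn a b D := hD
  have hDz : (D : ℤ) ≠ 0 := by exact_mod_cast hD.1.ne_zero
  have hg := g_ne hb hc hDz
  obtain ⟨t, ht, hNN⟩ := sr_nat hg.1 hg.2
  refine ⟨t, by rw [s_eq, ht], fun K hK hfd => ?_⟩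
  have hN : NumberField K := { to_charZero := inferInstance, to_finiteDimensional := hfd }
  obtain ⟨P, hP1, hP2⟩ := sub_TF (a := a) (b := b) (D := D) K hK
  obtain ⟨n, S, r, hS, -, hr, hgen, -⟩ := Pool.Agent.U80.MQ.exists_gens K hP2
  have hgen' : ∀ i1 i2 : Algebra ℚ K, @IntermediateField.adjoin ℚ _ K _ i1 (Set.range r) = ⊤ →
      @IntermediateField.adjoin ℚ _ K _ i2 (Set.range r) = ⊤ := by
    intro i1 i2 h
    have h1 : i1 = i2 := Subsingleton.elim _ _
    subst h1
    exact h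
  have hfd' : ∀ i1 : Algebra ℚ K, @FiniteDimensional ℚ K _ _ i1.toModule := by
    intro i1
    have h1 : i1 = DivisionRing.toRatAlgebra := Subsingleton.elim _ _
    subst h1
    exact hN.to_finiteDimensional
  exact @all_F a b hb hc D hDn t hNN K _ _ (hfd' _) P hP1 n S r hS hr (hgen' _ _ hgen)

end proof

/-- **Theorem.** -/
theorem result :
    (∀ a b : ℤ, ¬ IsSquare b → ¬ IsSquare (a ^ 2 - 4 * b) →
      Bounds a b ∧ Infinite a b ∧ Law a b) ∧
    0.4194 < cc ∧ cc < 0.4195 ∧ s 7 7 1 = 0 ∧ HasNeutral 7 7 ∧ s (-14) (-7) 1 = 1 ∧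
    HasNeutral (-14) (-7) := by
  obtain ⟨h1, h2, h3, h4, h5⟩ := Pool.Agent.Results.MP_78d38b_nt.TowersEveryCurve.result
  refine ⟨fun a b hb hc => ?_, h2, h3, h4, h5, ?_,
    Or.inl ⟨7, by norm_num, by norm_num, by norm_num, by norm_num, by norm_num⟩⟩
  · have hb0 : b ≠ 0 := by
      rintro rfl
      exact hb ⟨0, by norm_num⟩
    have hc0 : a ^ 2 - 4 * b ≠ 0 := by
      intro h
      exact hc ⟨0, by rw [h]; norm_num⟩
    obtain ⟨-, g2, g3, g4⟩ := h1 a b hb hc
    exact ⟨fun D hD => all_of hb0 hc0 hD, g2, g3, g4⟩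
  · rw [Pool.Agent.Results.MP_78d38b_nt.TowersEveryCurve.s_one]
    obtain ⟨t, ht, hNN⟩ := Pool.Agent.U80.GT.sr_nat (a := -14) (b := -7) (by norm_num) (by norm_num)
    rw [Pool.Agent.U80.AM.nn147] at hNN
    have h6 : 2 ^ 1 = 2 ^ t := Nat.eq_of_mul_eq_mul_left (by norm_num) hNN
    have h7 : 1 = t := Nat.pow_right_injective (le_refl 2) h6
    rw [ht, ← h7]
    rfl

end Pool.Agent.Results.MP_775b3b_nt.InfiniteTowersMultiplicities
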