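import Mathlib
import Pool.Agent.U214.UN.Full2
import Pool.Agent.U563.MM.Mq

/-!
# Multiplicities of the characters of multiquadratic fields in elliptic curves with full 2-torsion

Every elliptic curve over `ℚ` with full rational 2-torsion is isomorphic to
`y² = x (x - d a) (x - d b)` with `a`, `b` coprime and `d` squarefree. Let `F = ℚ(√g_0, …, √g_(k-1))`
be a multiquadratic field. Every irreducible representation `ρ` of `Gal(F/ℚ)` is a character of order
at most two, and the rank of `E(F)` is the sum of the multiplicities `m_ρ(E)`. For every `d ≠ 0` and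
every `r` the `r`-th moment of `2 ^ rank E(F)` over the coprime pairs `(a, b)` with `|a|, |b| ≤ H` is
at most `C (1 + log H) ^ kap (r 2 ^ k)`, `kap s = (2 ^ s - 1) (1 - 2 / 2 ^ s)`.
-/

set_option autoImplicit false

namespace Pool.Agent.Results.MP_775b3b_nt.MultiquadraticMultiplicities

open Finset

/-- the curve `y² = x (x - a) (x - b)` over the field `F` -/
def E (F : Type) [Field F] (a b : ℤ) : WeierstrassCurve F := ⟨0, -((a : F) + b), 0, (a : F) * b, 0⟩

open Classical in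
/-- the rank of the group of the points over `F` of `y² = x (x - a) (x - b)` -/
noncomputable def rank (F : Type) [Field F] (a b : ℤ) : ℕ :=
  Module.finrank ℤ (E F a b).toAffine.Point

/-- the subfield of `ℂ` generated by the square roots of the integers `g i` -/
noncomputable def K {k : ℕ} (g : Fin k → ℤ) : IntermediateField ℚ ℂ :=
  IntermediateField.adjoin ℚ {z : ℂ | ∃ i, z ^ 2 = ((g i : ℤ) : ℂ)}

/-- the pairs `(a, b)` of coprime integers with `|a|, |b| ≤ H` and `y² = x (x - a) (x - b)`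
nonsingular -/
noncomputable def Pairs (H : ℕ) : Finset (ℤ × ℤ) :=
  ((Icc (-(H : ℤ)) H) ×ˢ (Icc (-(H : ℤ)) H)).filter (fun w : ℤ × ℤ =>
    IsCoprime w.1 w.2 ∧ w.1 * w.2 * (w.1 - w.2) ≠ 0)

/-- the exponent -/
noncomputable def kap (s : ℕ) : ℝ := ((2 : ℝ) ^ s - 1) * (1 - 2 / 2 ^ s)

section

open Pool.Agent.U563.MM
open Pool.Agent.W262.RK (EAB)

lemma E_eq (F : Type) [Field F] (a b c : ℤ) :
    E F (c * a) (c * b) = Pool.Agent.Y682.gc (-(a + b) * c) (a * b * c ^ 2) F := by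
  unfold E Pool.Agent.Y682.gc
  congr 1
  · push_cast
    ring
  · push_cast
    ring

lemma rank_eq (F : Type) [Field F] [NumberField F] (a b c : ℤ) :
    rank F (c * a) (c * b) = RT (-(a + b)) (a * b) F c := by
  unfold rank RT Pool.Agent.TH841.NF.D.rk
  rw [← E_eq F a b c]

/-- the rank with a given decision procedure of the equality -/
noncomputable def rkd (W : WeierstrassCurve ℚ) (d : DecidableEq ℚ) : ℕ :=
  letI := d
  Module.finrank ℤ W.toAffine.Point

lemma rank_rat (a b : ℤ) :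
    rank ℚ a b = Module.finrank ℤ (EAB a b).toAffine.Point := by
  have h1 : rank ℚ a b = rkd (EAB a b) (Classical.decEq ℚ) := rfl
  have h2 : rkd (EAB a b) inferInstance = Module.finrank ℤ (EAB a b).toAffine.Point := rfl
  rw [h1, ← h2]
  exact congrArg _ (Subsingleton.elim _ _)

/-- a power of the sum is at most the sum of large powers -/
lemma pow_sum_le {ι : Type} (S : Finset ι) (hS : S.Nonempty) (f : ι → ℕ) (k : ℕ) :
    ((2 : ℝ) ^ (∑ i ∈ S, f i)) ^ k ≤ ∑ i ∈ S, ((2 : ℝ) ^ f i) ^ (k * S.card) := by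
  obtain ⟨i0, hi0, hmax⟩ := S.exists_max_image f hS
  have h1 : ∑ i ∈ S, f i ≤ S.card * f i0 := by
    rw [← smul_eq_mul]
    exact sum_le_card_nsmul S f (f i0) hmax
  calc ((2 : ℝ) ^ (∑ i ∈ S, f i)) ^ k ≤ ((2 : ℝ) ^ (S.card * f i0)) ^ k :=
        pow_le_pow_left₀ (by positivity) (pow_le_pow_right₀ (by norm_num) h1) k
    _ = ((2 : ℝ) ^ f i0) ^ (k * S.card) := by
        rw [← pow_mul, ← pow_mul]
        congr 1
        ring
    _ ≤ _ := single_le_sum (f := fun i => ((2 : ℝ) ^ f i) ^ (k * S.card))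
        (fun i _ => by positivity) hi0

end

open Pool.Agent.U563.MM in
open Pool.Agent.W262.RK (EAB) in
/-- All moments of `2 ^ rank E(F)` over the curves with full rational 2-torsion, for a
multiquadratic field `F`. -/
theorem result (d : ℤ) (hd : d ≠ 0) (k : ℕ) (g : Fin k → ℤ) (hg : ∀ i, g i ≠ 0) (r : ℕ) :
    ∃ C : ℝ, ∀ H : ℕ, 1 ≤ H →
    ∑ w ∈ Pairs H, ((2 : ℝ) ^ rank (K g) (d * w.1) (d * w.2)) ^ r ≤
      C * ((H : ℝ) ^ 2 * (1 + Real.log H) ^ kap (r * 2 ^ k)) ∧
    ∀ R : ℕ, (((Pairs H).filter (fun w => R ≤ rank (K g) (d * w.1) (d * w.2))).card : ℝ) ≤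
      C / 2 ^ (r * R) * ((H : ℝ) ^ 2 * (1 + Real.log H) ^ kap (r * 2 ^ k)) := by
  classical
  suffices hmain : ∃ C : ℝ, ∀ H : ℕ, 1 ≤ H →
      ∑ w ∈ Pairs H, ((2 : ℝ) ^ rank (K g) (d * w.1) (d * w.2)) ^ r ≤
        C * ((H : ℝ) ^ 2 * (1 + Real.log H) ^ kap (r * 2 ^ k)) by
    obtain ⟨C, hC⟩ := hmain
    refine ⟨C, fun H hH => ⟨hC H hH, fun R => ?_⟩⟩
    have h1 := hC H hH
    rw [div_mul_eq_mul_div, le_div_iff₀ (by positivity)]
    refine le_trans ?_ h1
    rw [← nsmul_eq_mul, ← sum_const]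
    refine (sum_le_sum fun t ht => ?_).trans (sum_le_sum_of_subset_of_nonneg (filter_subset _ _)
      fun t _ _ => by positivity)
    have h2 := (mem_filter.1 ht).2
    rw [← pow_mul, mul_comm r R]
    exact pow_le_pow_right₀ (by norm_num) (Nat.mul_le_mul_right r h2)
  have hcard : (univ : Finset (Fin k)).powerset.card = 2 ^ k := by
    rw [card_powerset, card_univ, Fintype.card_fin]
  -- the field
  have hK : K g = mqf (univ.image g) := by
    unfold K mqf
    congr 1
    ext z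
    simp only [Set.mem_setOf_eq, mem_image, mem_univ, true_and, exists_exists_eq_and]
  have hnf : NumberField (K g) := by
    rw [hK]
    exact nf _
  -- the twists
  have hQb : ∀ T : Finset (Fin k), ∃ C : ℝ, ∀ H : ℕ, 1 ≤ H →
      ∑ w ∈ Pairs H, ((2 : ℝ) ^ Module.finrank ℤ (EAB ((d * ∏ i ∈ T, g i) * w.1)
        ((d * ∏ i ∈ T, g i) * w.2)).toAffine.Point) ^ (r * 2 ^ k) ≤
        C * ((H : ℝ) ^ 2 * (1 + Real.log H) ^ kap (r * 2 ^ k)) := fun T =>
    Pool.Agent.U214.UN.full2 Pool.Agent.U214.GT.tr_QL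
      (mul_ne_zero hd (prod_ne_zero_iff.2 fun i _ => hg i)) (r * 2 ^ k)
  choose CT hCT using hQb
  refine ⟨∑ T ∈ (univ : Finset (Fin k)).powerset, CT T, fun H hH => ?_⟩
  have hpt : ∀ w ∈ Pairs H, ((2 : ℝ) ^ rank (K g) (d * w.1) (d * w.2)) ^ r ≤
      ∑ T ∈ (univ : Finset (Fin k)).powerset,
        ((2 : ℝ) ^ Module.finrank ℤ (EAB ((d * ∏ i ∈ T, g i) * w.1)
        ((d * ∏ i ∈ T, g i) * w.2)).toAffine.Point) ^ (r * 2 ^ k) := by
    intro w hw
    unfold Pairs at hw
    have h0 := (mem_filter.1 hw).2.2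
    have hBt : w.1 * w.2 ≠ 0 := left_ne_zero_of_mul h0
    have hDt : (-(w.1 + w.2)) ^ 2 - 4 * (w.1 * w.2) ≠ 0 := by
      have : (-(w.1 + w.2)) ^ 2 - 4 * (w.1 * w.2) = (w.1 - w.2) ^ 2 := by ring
      rw [this]
      exact pow_ne_zero 2 (right_ne_zero_of_mul h0)
    have h1 := rank_le hBt hDt g hg univ (K g) hK d hd
    rw [← rank_eq (K g) w.1 w.2 d] at h1
    have h2 : rank (K g) (d * w.1) (d * w.2) ≤ ∑ T ∈ (univ : Finset (Fin k)).powerset,
        Module.finrank ℤ (EAB ((d * ∏ i ∈ T, g i) * w.1)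
          ((d * ∏ i ∈ T, g i) * w.2)).toAffine.Point := by
      refine h1.trans (le_of_eq (sum_congr rfl fun T _ => ?_))
      rw [← rank_eq ℚ w.1 w.2, rank_rat]
    have h4 := pow_sum_le (univ : Finset (Fin k)).powerset ⟨∅, empty_mem_powerset _⟩
      (fun T => Module.finrank ℤ (EAB ((d * ∏ i ∈ T, g i) * w.1)
        ((d * ∏ i ∈ T, g i) * w.2)).toAffine.Point) r
    rw [hcard] at h4
    exact (pow_le_pow_left₀ (by positivity) (pow_le_pow_right₀ (by norm_num) h2) r).trans h4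
  refine (sum_le_sum hpt).trans ?_
  rw [sum_comm, sum_mul]
  exact sum_le_sum fun T _ => hCT T H hH

end Pool.Agent.Results.MP_775b3b_nt.MultiquadraticMultiplicities
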