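import Pool.Agent.U693.UN.Om

/-!
# A positive proportion of all elliptic curves over `ℚ` has no points over an infinite Galois extension

Let `K / ℚ` be any finite Galois extension of 2-power degree in which the prime `2` is unramified.

Theorem. There are a finite set `S` of primes, all `1` modulo `8`, and `c > 0`, such that at least `c` times
the number of ALL elliptic curves `E : y ^ 2 = x ^ 3 + A x + B` over `ℚ`, ordered by height, have the
following property. Let `C = C(E, S)` be the class of all the finite Galois extensions `M / ℚ` of 2-power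
degree in which `2` is unramified, in which all `Q ∈ S` split completely and in which only such primes `ℓ`
are ramified modulo which `x ^ 3 + A x + B` has no zero. Then `K` is in `C`, the class `C` is closed under
composita, and for a set of primes `ℓ` of positive lower density `ℚ(√ℓ)` is in `C`; and for ALL `M ∈ C` the
group `E(M)` is zero and `m_ρ(E) = 0` for all representations `ρ` of `Gal(M / ℚ)`.

Let `Ω` be the union of the images of the `M ∈ C` in the algebraic closure of `ℚ`. It is a field, stable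
under all automorphisms, which contains `√ℓ` for a set of primes `ℓ` of positive lower density (so
that it is infinite over `ℚ`), and `E(Ω) = 0`; for every number field `F` in `Ω` one has `E(F) = 0` and
`m_ρ(E) = 0` for all representations `ρ` of the automorphism group of `F`.

The difference to `MP_775b3b_nt.PositiveProportionUnramified` (project PV of helper922), where the field
is given first and the set of curves depends on it, is the order of the quantifiers: here one set
of curves of positive density works for the infinitely many fields in `C`. It is an analogue over `ℚ` of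
`MP_ff7320_nt.UniformOverTwoExtensions` (project TW of helper874, over `k(t)`).

Proof. As in project PV we consider pairs `(a, b)` with squarefree `4 a ^ 3 + 27 b ^ 2`, `4 ∣ a - b`, for
which `x ^ 3 + a x + b` has no zero modulo `2`, `3` and the prime divisors of a discriminant which belongs
to `K`, and is `x (x ^ 2 + s)`, `- s` not a square, modulo `Q ∈ S`. Let `θ` be a zero, `L = ℚ(θ)`. For most
pairs lattices, reciprocity and linear algebra give a subset `J` of `S` such that every element of `L`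
modulo squares with square norm, with even valuations at ALL primes which do not divide a `Q ∈ J`, which
comes from a point at `2` and satisfies the local conditions of the twist by `∏ Q ∈ J, Q` at `Q ∈ J`, is
trivial. Now let `M` be in the class of the twisted curve. The 2-Selmer group over `M` is a group of
elements of `M(θ)` modulo squares, stable under `Gal(M / ℚ)`; by a descent along quadratic steps it is zero
if its invariant part is zero. The invariant part comes from `L`. The primes of `L` which do not divide a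
ramified prime `P` of `M` are unramified in `M(θ)`, so the parity of the valuations there can be read off
in `M(θ)`; modulo a ramified `P` the polynomial has no zero, so that there is only one prime of `L` over
`P`, of degree three, and the parity there follows from the norm; the `Q ∈ J` split completely in `M`. So the
invariant part is zero, for all `M` at the same time; the class of points at `2` is treated as in project
PV. That the class is closed under composita is Galois theory (inertia groups, Frobenius elements); the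
quadratic fields come from Chebotarev's theorem for the splitting field of
`(x ^ 3 + A x + B) (x ^ 2 + 1) ∏ (x ^ 2 - Q)` and quadratic reciprocity.

Library: projects PQ and PV (helper922 and the helpers named in `PositiveProportionUnramified`) and
Chebotarev's theorem (`Pool.Agent.W401.Cheb`, `Pool.Agent.Q283.TW.Dens`).
-/

set_option autoImplicit false
set_option linter.all false

namespace Pool.Agent.Results.MP_775b3b_nt.UniformOverTwoExtensions

open Filter NumberField
open scoped Classical TensorProduct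

/-- The equation `y ^ 2 = x ^ 3 + A x + B` with integers `A`, `B` defines an elliptic curve, and
there is no prime `p` with `p ^ 4 ∣ A` and `p ^ 6 ∣ B`. Every elliptic curve over `ℚ` is isomorphic to
exactly one of these. -/
structure IsMinimal (A B : ℤ) : Prop where
  elliptic : 4 * A ^ 3 + 27 * B ^ 2 ≠ 0
  minimal : ∀ p : ℕ, p.Prime → ¬ ((p : ℤ) ^ 4 ∣ A ∧ (p : ℤ) ^ 6 ∣ B)

/-- The height. -/
def height (p : ℤ × ℤ) : ℤ := max (4 * |p.1| ^ 3) (27 * p.2 ^ 2)

/-- The set of all elliptic curves over `ℚ` of height at most `X`. -/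
def Curves (X : ℕ) : Set (ℤ × ℤ) := {p | IsMinimal p.1 p.2 ∧ height p ≤ X}

/-- The curve `y ^ 2 = x ^ 3 + A x + B` over `ℚ`, for `p = (A, B)`. -/
def curve (p : ℤ × ℤ) : WeierstrassCurve ℚ := ⟨0, 0, 0, (p.1 : ℚ), (p.2 : ℚ)⟩

section mult

variable (F : Type) [Field F] [CharZero F] (p : ℤ × ℤ)

/-- The group `E(F)`. -/
def Pts : Type := ((curve p).baseChange F).toAffine.Point

noncomputable instance instPts : AddCommGroup (Pts F p) :=
  (inferInstance : AddCommGroup ((curve p).baseChange F).toAffine.Point)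

/-- The action of `g` in the Galois group on `E(F)`. -/
noncomputable def act (g : F ≃ₐ[ℚ] F) : Pts F p →+ Pts F p :=
  WeierstrassCurve.Affine.Point.map (W' := (curve p).toAffine) g.toAlgHom

/-- The complex vector space `V_E = E(F) ⊗ ℂ`. -/
def VE : Type := ℂ ⊗[ℤ] Pts F p

noncomputable instance instVE : AddCommGroup (VE F p) :=
  (inferInstance : AddCommGroup (ℂ ⊗[ℤ] Pts F p))

noncomputable instance instVE' : Module ℂ (VE F p) :=
  (inferInstance : Module ℂ (ℂ ⊗[ℤ] Pts F p))

/-- The action of `g` on `V_E`. -/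
noncomputable def gal (g : F ≃ₐ[ℚ] F) : VE F p →ₗ[ℂ] VE F p :=
  LinearMap.baseChange ℂ (act F p g).toIntLinearMap

/-- The space `Hom_G(ρ, V_E)`. -/
def HomG {V : Type} [AddCommGroup V] [Module ℂ V] (ρ : Representation ℂ (F ≃ₐ[ℚ] F) V) :
    Submodule ℂ (V →ₗ[ℂ] VE F p) where
  carrier := {f | ∀ (g : F ≃ₐ[ℚ] F) (v : V), f (ρ g v) = gal F p g (f v)}
  add_mem' := by
    intro f f' h h' g v
    rw [LinearMap.add_apply, LinearMap.add_apply, h g v, h' g v, map_add]
  zero_mem' := by
    intro g v
    rw [LinearMap.zero_apply, LinearMap.zero_apply, map_zero]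
  smul_mem' := by
    intro c f h g v
    rw [LinearMap.smul_apply, LinearMap.smul_apply, h g v, map_smul]

/-- The multiplicity `m_ρ(E) = dim Hom_G(ρ, V_E)`. -/
noncomputable def mult {V : Type} [AddCommGroup V] [Module ℂ V]
    (ρ : Representation ℂ (F ≃ₐ[ℚ] F) V) : Cardinal := Module.rank ℂ (HomG F p ρ)

end mult

/-- `E(F) = 0`, and all multiplicities `m_ρ(E)` are zero. -/
structure AllZero (F : Type) [Field F] [CharZero F] (p : ℤ × ℤ) : Prop where
  trivial : Subsingleton (Pts F p)
  zero : ∀ (V : Type) [AddCommGroup V] [Module ℂ V] (ρ : Representation ℂ (F ≃ₐ[ℚ] F) V),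
    mult F p ρ = 0

/-- The class `C(E, S)` for `E : y ^ 2 = x ^ 3 + A x + B`, `p = (A, B)`: the number fields `M` which are
Galois over `ℚ`, of degree a power of two, in which `2` is unramified (no prime ideal `𝔭` has `2 ∈ 𝔭 ^ 2`),
in which all `q ∈ S` split completely (they are unramified, and every integer of `M` is congruent to
a rational integer modulo each prime over `q`) and in which only such primes `ℓ` are ramified modulo which
`x ^ 3 + A x + B` has no zero. -/
structure InClass (S : Finset ℕ) (p : ℤ × ℤ) (M : Type) [Field M] [NumberField M] : Prop where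
  galois : IsGalois ℚ M
  degree : ∃ n : ℕ, Module.finrank ℚ M = 2 ^ n
  two : ∀ 𝔭 : Ideal (𝓞 M), 𝔭.IsPrime → (2 : 𝓞 M) ∉ 𝔭 ^ 2
  split : ∀ q ∈ S, ∀ 𝔭 : Ideal (𝓞 M), 𝔭.IsPrime → (q : 𝓞 M) ∈ 𝔭 →
    (q : 𝓞 M) ∉ 𝔭 ^ 2 ∧ ∀ x : 𝓞 M, ∃ c : ℤ, x - (c : 𝓞 M) ∈ 𝔭
  ramified : ∀ ℓ : ℕ, ℓ.Prime → (∃ 𝔭 : Ideal (𝓞 M), 𝔭.IsPrime ∧ (ℓ : 𝓞 M) ∈ 𝔭 ^ 2) →
    ∀ z : ℤ, ¬ (ℓ : ℤ) ∣ z ^ 3 + p.1 * z + p.2

/-- Every number field which is generated by a square root of `ℓ` is in the class. -/
def HasQuadratic (S : Finset ℕ) (p : ℤ × ℤ) (ℓ : ℕ) : Prop :=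
  ∀ (M : Type) [Field M] [NumberField M] (r : M), r ^ 2 = (ℓ : M) →
    (∀ T : Subfield M, r ∈ T → T = ⊤) → InClass S p M

/-- The union `Ω` of all images of fields in the class in the algebraic closure of `ℚ`. -/
def Omega (S : Finset ℕ) (p : ℤ × ℤ) : Set (AlgebraicClosure ℚ) :=
  {x | ∃ (M : Type) (_ : Field M) (_ : NumberField M) (φ : M →+* AlgebraicClosure ℚ),
    InClass S p M ∧ x ∈ Set.range φ}

/-- The property of the curve `p`. -/
structure Good (K : Type) [Field K] [NumberField K] (S : Finset ℕ) (p : ℤ × ℤ) : Prop where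
  /-- `K` is in the class. -/
  base : InClass S p K
  /-- The class is closed under composita. -/
  composita : ∀ (M₁ M₂ N : Type) [Field M₁] [NumberField M₁] [Field M₂] [NumberField M₂] [Field N]
    [NumberField N] [Algebra M₁ N] [Algebra M₂ N],
    (∀ T : Subfield N, (∀ x : M₁, algebraMap M₁ N x ∈ T) → (∀ x : M₂, algebraMap M₂ N x ∈ T) →
      T = ⊤) → InClass S p M₁ → InClass S p M₂ → InClass S p N
  /-- A set of primes `ℓ` of positive lower density for which `ℚ(√ℓ)` is in the class and `√ℓ ∈ Ω`. -/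
  many : ∃ δ : ℝ, 0 < δ ∧ ∀ᶠ N : ℕ in atTop, δ * (Nat.primeCounting N : ℝ) ≤
    (((Finset.range (N + 1)).filter fun ℓ => ℓ.Prime ∧ HasQuadratic S p ℓ ∧
      ∀ r : AlgebraicClosure ℚ, r ^ 2 = (ℓ : AlgebraicClosure ℚ) → r ∈ Omega S p).card : ℝ)
  /-- Over all fields in the class `E` has no points and all multiplicities are zero. -/
  zero : ∀ (M : Type) [Field M] [NumberField M], InClass S p M → AllZero M p
  /-- The same holds for all number fields in `Ω`. -/
  subfields : ∀ (F : Type) [Field F] [NumberField F] (φ : F →+* AlgebraicClosure ℚ),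
    (∀ x, φ x ∈ Omega S p) → AllZero F p
  /-- `Ω` is a field, stable under all automorphisms, and `E(Ω)` is zero. -/
  omega : ∃ T : Subfield (AlgebraicClosure ℚ), (T : Set (AlgebraicClosure ℚ)) = Omega S p ∧
    (∀ σ : AlgebraicClosure ℚ →+* AlgebraicClosure ℚ, ∀ x ∈ T, σ x ∈ T) ∧
    ∀ x ∈ T, ∀ y ∈ T, y ^ 2 ≠ x ^ 3 + (p.1 : AlgebraicClosure ℚ) * x + (p.2 : AlgebraicClosure ℚ)

theorem crv_iff (X : ℕ) (p : ℤ × ℤ) : Pool.Agent.N922.PQ.Crv X p.1 p.2 ↔ p ∈ Curves X := by
  constructor
  · rintro ⟨h1, h2, h3, h4⟩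
    exact ⟨⟨h1, h2⟩, max_le h3 h4⟩
  · rintro ⟨⟨h1, h2⟩, h3⟩
    exact ⟨h1, h2, (le_max_left _ _).trans h3, (le_max_right _ _).trans h3⟩

theorem nonempty {X : ℕ} (hX : 27 ≤ X) : ((1, 1) : ℤ × ℤ) ∈ Curves X := by
  refine ⟨⟨by norm_num, ?_⟩, ?_⟩
  · rintro p hp ⟨h, -⟩
    have h1 : ((p : ℤ)) ∣ 1 := (dvd_pow_self (p : ℤ) (by norm_num)).trans h
    have h2 : p ∣ 1 := by exact_mod_cast h1
    exact hp.one_lt.ne' (Nat.dvd_one.1 h2)
  · have : height ((1, 1) : ℤ × ℤ) = 27 := by
      simp [height]
    rw [this]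
    exact_mod_cast hX

/-- The multiplicities are zero if there are no points. -/
theorem allZero_of {F : Type} [Field F] [CharZero F] {p : ℤ × ℤ} (k1 : Subsingleton (Pts F p)) :
    AllZero F p := by
  refine ⟨k1, ?_⟩
  intro V _ _ ρ
  have hz : ∀ x : VE F p, x = 0 := by
    intro x
    change ℂ ⊗[ℤ] Pts F p at x
    induction x using TensorProduct.induction_on with
    | zero => rfl
    | tmul z P =>
      rw [Subsingleton.elim P 0, TensorProduct.tmul_zero]
      rfl
    | add x y hx hy =>
      rw [hx, hy]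
      exact add_zero (0 : VE F p)
  have hs : Subsingleton (HomG F p ρ) := by
    refine ⟨fun f f' => ?_⟩
    apply Subtype.ext
    ext v
    rw [hz ((f : V →ₗ[ℂ] VE F p) v), hz ((f' : V →ₗ[ℂ] VE F p) v)]
  exact rank_subsingleton' ℂ _

/-- The points in terms of the equation. -/
theorem pts_iff {F : Type} [Field F] [CharZero F] {p : ℤ × ℤ}
    (hd : 4 * p.1 ^ 3 + 27 * p.2 ^ 2 ≠ 0) : Subsingleton (Pts F p) ↔
      ∀ x y : F, y ^ 2 ≠ x ^ 3 + (p.1 : F) * x + (p.2 : F) := by
  have e4 : ((curve p).baseChange F).a₄ = (p.1 : F) := by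
    simp [curve, WeierstrassCurve.baseChange]
  have e6 : ((curve p).baseChange F).a₆ = (p.2 : F) := by
    simp [curve, WeierstrassCurve.baseChange]
  have h := Pool.Agent.U693.UN.np_iff ((curve p).baseChange F)
    (by simp [curve, WeierstrassCurve.baseChange]) (by simp [curve, WeierstrassCurve.baseChange])
    (by simp [curve, WeierstrassCurve.baseChange]) (by
      rw [e4, e6]
      exact_mod_cast hd)
  rw [e4, e6] at h
  exact h

theorem isPr_iff {q : ℕ} : Pool.Agent.N922.PQ.IsPr (q : ℤ) ↔ q.Prime := by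
  constructor
  · intro h
    exact Nat.prime_iff_prime_int.2 h.2
  · intro h
    exact ⟨by exact_mod_cast h.pos, Nat.prime_iff_prime_int.1 h⟩

/-- The class in terms of the class of the library. -/
theorem class_iff {S : Finset ℤ} (hS : ∀ Q ∈ S, Pool.Agent.N922.PQ.IsPr Q) (p : ℤ × ℤ) (M : Type)
    [Field M] [NumberField M] : InClass (S.image Int.toNat) p M ↔
      Pool.Agent.U693.UN.InClass S p.1 p.2 M := by
  have hto : ∀ P : ℤ, Pool.Agent.N922.PQ.IsPr P → ((P.toNat : ℕ) : ℤ) = P := fun P hP =>
    Int.toNat_of_nonneg hP.1.le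
  constructor
  · intro h
    refine ⟨h.galois, h.degree, h.two, fun Q hQ 𝔭 h𝔭 hm => ?_, fun P hP hex => ?_⟩
    · have h1 := h.split Q.toNat (Finset.mem_image_of_mem _ hQ) 𝔭 h𝔭
      have e : ((Q.toNat : ℕ) : 𝓞 M) = (Q : 𝓞 M) := by
        rw [← Int.cast_natCast, hto Q (hS Q hQ)]
      rw [e] at h1
      exact h1 hm
    · have h1 := h.ramified P.toNat (isPr_iff.1 (by rw [hto P hP]; exact hP))
      have e : ((P.toNat : ℕ) : 𝓞 M) = (P : 𝓞 M) := by
        rw [← Int.cast_natCast, hto P hP]
      rw [e, hto P hP] at h1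
      exact h1 hex
  · intro h
    refine ⟨h.galois, h.degree, h.two, fun q hq 𝔭 h𝔭 hm => ?_, fun ℓ hℓ hex => ?_⟩
    · obtain ⟨Q, hQ, rfl⟩ := Finset.mem_image.1 hq
      have h1 := h.split Q hQ 𝔭 h𝔭
      have e : ((Q.toNat : ℕ) : 𝓞 M) = (Q : 𝓞 M) := by
        rw [← Int.cast_natCast, hto Q (hS Q hQ)]
      rw [e] at hm ⊢
      exact h1 hm
    · have h1 := h.ram (ℓ : ℤ) (isPr_iff.2 hℓ)
      rw [Int.cast_natCast] at h1
      exact h1 hex

theorem omega_eq {S : Finset ℤ} (hS : ∀ Q ∈ S, Pool.Agent.N922.PQ.IsPr Q) (p : ℤ × ℤ) :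
    Omega (S.image Int.toNat) p = Pool.Agent.U693.UN.Om (AlgebraicClosure ℚ) S p.1 p.2 := by
  ext x
  constructor
  · rintro ⟨M, i1, i2, φ, hM, hx⟩
    exact ⟨M, i1, i2, φ, (class_iff hS p M).1 hM, hx⟩
  · rintro ⟨M, i1, i2, φ, hM, hx⟩
    exact ⟨M, i1, i2, φ, (class_iff hS p M).2 hM, hx⟩

/-- For every Galois extension `K / ℚ` of degree `2 ^ n` in which `2` is unramified there are a finite
set `S` of primes, all `1` modulo `8`, and `c > 0` such that for all large `X` at least `c` times the number of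
all elliptic curves `E` over `ℚ` of height at most `X` have the property `Good K S`: `K` is in the class
`C(E, S)`, the class is closed under composita and contains `ℚ(√ℓ)` for a set of primes `ℓ` of
positive lower density, and `E` has no points (but the point at infinity) over ALL the fields in the
class and over the union `Ω` of all of them, and all multiplicities `m_ρ(E)` over all number fields in `Ω`
are zero. -/
theorem result (K : Type) [Field K] [NumberField K] [IsGalois ℚ K] (n : ℕ)
    (hn : Module.finrank ℚ K = 2 ^ n)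
    (h2 : ∀ 𝔭 : Ideal (𝓞 K), 𝔭.IsPrime → (2 : 𝓞 K) ∉ 𝔭 ^ 2) :
    (∀ X : ℕ, (Curves X).Finite) ∧
    ∃ S : Finset ℕ, (∀ q ∈ S, q.Prime ∧ q % 8 = 1) ∧ ∃ c : ℝ, 0 < c ∧ ∀ᶠ X : ℕ in atTop,
      0 < (Curves X).ncard ∧
      c * ((Curves X).ncard : ℝ) ≤ (({p ∈ Curves X | Good K S p}).ncard : ℝ) := by
  have hset : ∀ X : ℕ, Curves X = {p : ℤ × ℤ | Pool.Agent.N922.PQ.Crv X p.1 p.2} := by
    intro X
    ext p
    exact (crv_iff X p).symm
  have hfin : ∀ X : ℕ, (Curves X).Finite := fun X => by
    rw [hset]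
    exact Pool.Agent.N922.PQ.crv_fin X
  refine ⟨hfin, ?_⟩
  obtain ⟨S, hS, c, hc, X₀, h⟩ := Pool.Agent.U693.UN.finalU K hn h2
  have hSp : ∀ Q ∈ S, Pool.Agent.N922.PQ.IsPr Q := fun Q hQ => (hS Q hQ).1
  refine ⟨S.image Int.toNat, ?_, c, hc, ?_⟩
  · intro q hq
    obtain ⟨Q, hQ, rfl⟩ := Finset.mem_image.1 hq
    obtain ⟨h3, h4⟩ := hS Q hQ
    have e : ((Q.toNat : ℕ) : ℤ) = Q := Int.toNat_of_nonneg h3.1.le
    refine ⟨isPr_iff.1 (by rw [e]; exact h3), by omega⟩
  filter_upwards [eventually_ge_atTop (max X₀ 27)] with X hX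
  refine ⟨(Set.ncard_pos (hfin X)).2 ⟨_, nonempty ((le_max_right _ _).trans hX)⟩, ?_⟩
  have h1 := (h X ((le_max_left _ _).trans hX)).2
  rw [← hset] at h1
  refine h1.trans ?_
  have h3 : {p : ℤ × ℤ | Pool.Agent.N922.PQ.Crv X p.1 p.2 ∧
      (Pool.Agent.U693.UN.InClass S p.1 p.2 K ∧
        (∀ z : ℤ, ¬ (2 : ℤ) ∣ z ^ 3 + p.1 * z + p.2) ∧
        ∀ (M : Type) [Field M] [NumberField M], Pool.Agent.U693.UN.InClass S p.1 p.2 M →
          Pool.Agent.N922.PQ.GoodV (M := M) (𝓞 M) p)} ⊆
        {p ∈ Curves X | Good K (S.image Int.toNat) p} := by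
    rintro p ⟨hp, hK, hnz, hgood⟩
    have hpC := (crv_iff X p).1 hp
    have hd : 4 * p.1 ^ 3 + 27 * p.2 ^ 2 ≠ 0 := hpC.1.elliptic
    have hpts : ∀ (M : Type) [Field M] [NumberField M], Pool.Agent.U693.UN.InClass S p.1 p.2 M →
        Subsingleton (Pts M p) := by
      intro M _ _ hM
      have e : (Pool.Agent.N874.PP.sW (p.1 : M) (p.2 : M)).baseChange M =
          (curve p).baseChange M := by
        apply WeierstrassCurve.ext <;>
          simp [Pool.Agent.N874.PP.sW, curve, WeierstrassCurve.baseChange]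
      have key : ∀ W : WeierstrassCurve M,
          (Pool.Agent.N874.PP.sW (p.1 : M) (p.2 : M)).baseChange M = W →
          Subsingleton W.toAffine.Point := by
        rintro W rfl
        exact (hgood M hM).2.1
      exact key _ e
    have hnp : ∀ (M : Type) [Field M] [NumberField M], Pool.Agent.U693.UN.InClass S p.1 p.2 M →
        ∀ x y : M, y ^ 2 ≠ x ^ 3 + (p.1 : M) * x + (p.2 : M) := fun M _ _ hM =>
      (pts_iff hd).1 (hpts M hM)
    have homega := omega_eq hSp p
    refine ⟨hpC, ?_⟩
    refine ⟨(class_iff hSp p K).2 hK, ?_, ?_, ?_, ?_, ?_⟩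
    · intro M₁ M₂ N _ _ _ _ _ _ _ _ hg h₁ h₂
      have h₁' := (class_iff hSp p M₁).1 h₁
      have h₂' := (class_iff hSp p M₂).1 h₂
      haveI := h₁'.galois
      haveI := h₂'.galois
      exact (class_iff hSp p N).2 (Pool.Agent.U693.UN.InClass.comp hSp hg h₁' h₂')
    · obtain ⟨δ, hδ, hev⟩ := Pool.Agent.U693.UN.dens S (fun Q hQ => (hSp Q hQ).2.ne_zero) hnz
      refine ⟨δ, hδ, ?_⟩
      filter_upwards [hev] with N hN
      refine hN.trans ?_
      have hsub : ((Finset.range (N + 1)).filter fun ℓ => ℓ.Prime ∧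
          Pool.Agent.U693.UN.Tp p.1 p.2 S ℓ) ⊆ ((Finset.range (N + 1)).filter fun ℓ => ℓ.Prime ∧
            HasQuadratic (S.image Int.toNat) p ℓ ∧ ∀ r : AlgebraicClosure ℚ,
              r ^ 2 = (ℓ : AlgebraicClosure ℚ) → r ∈ Omega (S.image Int.toNat) p) := by
        intro ℓ hℓ
        rw [Finset.mem_filter] at hℓ ⊢
        have hq := Pool.Agent.U693.UN.quad_of_Tp hS hℓ.2.1 hℓ.2.2
        refine ⟨hℓ.1, hℓ.2.1, ?_, ?_⟩
        · intro M _ _ r hr hgen
          exact (class_iff hSp p M).2 (hq M r (by rw [hr, Int.cast_natCast]) hgen)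
        · intro r hr
          rw [homega]
          exact Pool.Agent.U693.UN.om_sqrt (d := (ℓ : ℤ)) (fun M _ _ r hr hgen => hq M r hr hgen)
            (by rw [hr, Int.cast_natCast])
      exact_mod_cast Finset.card_le_card hsub
    · intro M _ _ hM
      exact allZero_of (hpts M ((class_iff hSp p M).1 hM))
    · intro F _ _ φ hφ
      rw [homega] at hφ
      obtain ⟨M, i1, i2, hM, ⟨ψ⟩⟩ := Pool.Agent.U693.UN.om_sub φ hφ
      apply allZero_of
      rw [pts_iff hd]
      intro x y he
      apply hnp M hM (ψ x) (ψ y)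
      have h5 := congrArg ψ he
      simpa using h5
    · obtain ⟨T, hT⟩ := Pool.Agent.U693.UN.om_field hSp
        ((IsAlgClosed.lift : K →ₐ[ℚ] AlgebraicClosure ℚ) : K →+* AlgebraicClosure ℚ) hK
      have hmem : ∀ x, x ∈ T ↔ x ∈ Pool.Agent.U693.UN.Om (AlgebraicClosure ℚ) S p.1 p.2 := by
        intro x
        rw [← hT]
        rfl
      refine ⟨T, by rw [hT, homega], ?_, ?_⟩
      · intro σ x hx
        rw [hmem] at hx ⊢
        exact Pool.Agent.U693.UN.om_stable σ hx
      · intro x hx y hy
        rw [hmem] at hx hy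
        exact Pool.Agent.U693.UN.om_np hSp (fun M _ _ hM => hnp M hM) hx hy
  have h4 := Set.ncard_le_ncard h3 ((hfin X).subset fun p hp => hp.1)
  exact_mod_cast h4

end Pool.Agent.Results.MP_775b3b_nt.UniformOverTwoExtensions
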